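import Pool.Agent.Helper69.EK.Stm

set_option autoImplicit false

/-!
# The Hamilton-Jacobi equation to all orders
-/

namespace Pool.Agent.Helper69.EK

open Set Filter Topology Pool.Agent.Helper6K9.ES
open Pool.Agent.Helper6K9.EH (Prof Fam eX eY dst pt Tr mkFam Pv Shf S_PROF S_FLOW)
open scoped ContDiff

namespace HJL

theorem df {a : PP → ℝ} (ha : SP a) : Differentiable ℝ a := ha.1.differentiable (by simp)

theorem sp_add {a b : PP → ℝ} (ha : SP a) (hb : SP b) : SP (fun z => a z + b z) :=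
  ⟨ha.1.add hb.1, fun p k l δ W => by simp only [ha.2, hb.2]⟩

theorem sp_sub {a b : PP → ℝ} (ha : SP a) (hb : SP b) : SP (fun z => a z - b z) :=
  ⟨ha.1.sub hb.1, fun p k l δ W => by simp only [ha.2, hb.2]⟩

theorem sp_mul {a b : PP → ℝ} (ha : SP a) (hb : SP b) : SP (fun z => a z * b z) :=
  ⟨ha.1.mul hb.1, fun p k l δ W => by simp only [ha.2, hb.2]⟩

theorem sp_const (c : ℝ) : SP (fun _ => c) := ⟨contDiff_const, fun _ _ _ _ _ => rfl⟩

theorem sp_d : SP (fun z => z.2.1) := ⟨contDiff_snd.fst, fun _ _ _ _ _ => rfl⟩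

theorem sp_w : SP (fun z => z.2.2) := ⟨contDiff_snd.snd, fun _ _ _ _ _ => rfl⟩

theorem sp_pow {a : PP → ℝ} (ha : SP a) (n : ℕ) : SP (fun z => a z ^ n) :=
  ⟨ha.1.pow n, fun p k l δ W => by simp only [ha.2]⟩

theorem sp_pd {a : PP → ℝ} (ha : SP a) (v : PP) : SP (pd v a) := by
  refine ⟨?_, fun p k l δ W => ?_⟩
  · have h1 : ContDiff ℝ ∞ (fderiv ℝ a) := ha.1.fderiv_right (by simp)
    exact h1.clm_apply contDiff_const
  · unfold pd
    have h1 : (fun z : PP => a (z + ((fun i => (k i : ℝ), (l : ℝ)), 0, 0))) = a := by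
      funext z
      have := ha.2 z.1 k l z.2.1 z.2.2
      rw [← this]
      congr 1
      ext <;> simp
    have h2 := fderiv_comp_add_right (𝕜 := ℝ) (f := a) (x := (p, δ, W))
      ((((fun i => (k i : ℝ)), (l : ℝ)), 0, 0) : PP)
    rw [h1] at h2
    rw [h2]
    congr 2
    ext <;> simp

theorem pd_add {a b : PP → ℝ} (ha : SP a) (hb : SP b) (v z : PP) :
    pd v (fun z => a z + b z) z = pd v a z + pd v b z := by
  unfold pd
  rw [fderiv_fun_add (df ha z) (df hb z)]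
  simp

theorem pd_sub {a b : PP → ℝ} (ha : SP a) (hb : SP b) (v z : PP) :
    pd v (fun z => a z - b z) z = pd v a z - pd v b z := by
  unfold pd
  rw [fderiv_fun_sub (df ha z) (df hb z)]
  simp

theorem pd_mul {a b : PP → ℝ} (ha : SP a) (hb : SP b) (v z : PP) :
    pd v (fun z => a z * b z) z = a z * pd v b z + b z * pd v a z := by
  unfold pd
  rw [fderiv_fun_mul (df ha z) (df hb z)]
  simp

theorem pd_const (c : ℝ) (v z : PP) : pd v (fun _ => c) z = 0 := by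
  unfold pd
  simp

theorem pd_d (v z : PP) : pd v (fun z => z.2.1) z = v.2.1 := by
  unfold pd
  have : HasFDerivAt (fun z : PP => z.2.1)
      ((ContinuousLinearMap.fst ℝ ℝ ℝ).comp (ContinuousLinearMap.snd ℝ (E 1) (ℝ × ℝ))) z :=
    ((ContinuousLinearMap.fst ℝ ℝ ℝ).comp (ContinuousLinearMap.snd ℝ (E 1) (ℝ × ℝ))).hasFDerivAt
  rw [this.fderiv]
  rfl

theorem sp_dp (n : ℕ) : SP (fun z => z.2.1 ^ n) := sp_pow sp_d n

theorem pd_dp {v : PP} (hv : v.2.1 = 0) (n : ℕ) (z : PP) : pd v (fun z => z.2.1 ^ n) z = 0 := by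
  induction n with
  | zero => simpa using pd_const 1 v z
  | succ n ih =>
    have h1 : (fun z : PP => z.2.1 ^ (n + 1)) = fun z : PP => z.2.1 ^ n * z.2.1 := by
      funext z
      exact pow_succ _ _
    rw [h1, pd_mul (sp_dp n) sp_d, ih, pd_d, hv]
    ring

theorem pd_dpm {a : PP → ℝ} (ha : SP a) {v : PP} (hv : v.2.1 = 0) (n : ℕ) (z : PP) :
    pd v (fun z => z.2.1 ^ n * a z) z = z.2.1 ^ n * pd v a z := by
  rw [pd_mul (sp_dp n) ha, pd_dp hv]
  ring

theorem sp_dl {a : PP → ℝ} (ha : SP a) : SP (dl a) := sp_mul sp_d ha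

theorem pd_dl {a : PP → ℝ} (ha : SP a) {v : PP} (hv : v.2.1 = 0) (z : PP) :
    pd v (dl a) z = z.2.1 * pd v a z := by
  have := pd_dpm ha hv 1 z
  simp only [pow_one] at this
  exact this

/-- the restriction to `δ = 0` -/
theorem sp_res {a : PP → ℝ} (ha : SP a) : SP (fun z => a (z.1, 0, z.2.2)) := by
  refine ⟨?_, fun p k l δ W => ha.2 p k l 0 W⟩
  exact ha.1.comp (contDiff_fst.prodMk (contDiff_const.prodMk contDiff_snd.snd))

theorem sp_sh {a : PP → ℝ} (ha : SP a) {g : PP → ℝ} (hg : SP g) (v : PP) :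
    SP (fun z => a (z + g z • v)) := by
  refine ⟨?_, fun p k l δ W => ?_⟩
  · exact ha.1.comp (contDiff_id.add (hg.1.smul contDiff_const))
  · simp only [hg.2]
    have := ha.2 (p + (g (p, δ, W) • v).1) k l (δ + (g (p, δ, W) • v).2.1)
      (W + (g (p, δ, W) • v).2.2)
    have e1 : ((((p.1 + fun i => (k i : ℝ)), p.2 + (l : ℝ)), δ, W) : PP) + g (p, δ, W) • v =
        (((p + (g (p, δ, W) • v).1).1 + (fun i => (k i : ℝ)), (p + (g (p, δ, W) • v).1).2 + (l : ℝ)),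
          δ + (g (p, δ, W) • v).2.1, W + (g (p, δ, W) • v).2.2) := by
      ext
      · simp; ring
      · simp; ring
      · simp
      · simp
    rw [e1, this]
    rfl

end HJL

open HJL in
theorem hj (had : S_HAD) : S_HJ := by
  obtain ⟨had1, had2, had3⟩ := had
  intro α γ b Fh N hF
  have hFp : SP (fun z => Fh z.1) := by
    refine ⟨hF.1.comp contDiff_fst, fun p k l δ W => ?_⟩
    exact hF.2 p k l
  suffices H : ∃ σ₁ h ρ : PP → ℝ, SP σ₁ ∧ SP h ∧ SP ρ ∧ (∀ z, pd vx h z = 0) ∧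
      (N = 0 → (∀ z, h z = 0) ∧ ∀ z, ρ z = -Fh z.1) ∧
      (1 ≤ N → ∀ (p : E 1) (W : ℝ), h (p, 0, W) = -av Fh p) ∧
      ∀ z, resid α γ b Fh σ₁ h z = z.2.1 ^ N * ρ z by
    obtain ⟨σ₁, h, ρ, h1, h2, h3, h4, -, h5, h6⟩ := H
    exact ⟨σ₁, h, ρ, h1, h2, h3, h4, h5, h6⟩
  induction N with
  | zero =>
    refine ⟨fun _ => 0, fun _ => 0, fun z => -1 * Fh z.1, sp_const 0, sp_const 0,
      sp_mul (sp_const (-1)) hFp, fun z => pd_const 0 vx z, fun _ => ⟨fun z => rfl, fun z => by ring⟩,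
      fun h => absurd h (by norm_num), fun z => ?_⟩
    have h0 : dl (fun _ : PP => (0 : ℝ)) = fun _ => 0 := by
      funext z
      simp [dl]
    unfold resid
    rw [h0]
    simp only [pd_const]
    ring
  | succ N ih =>
    obtain ⟨σ₁, h, ρ, hσ, hh, hρ, hvx, hN0, hN1, hres⟩ := ih
    obtain ⟨c, hc, hce⟩ := had1 ρ hρ
    obtain ⟨A, B, hA, hB, hA0, hB0, hAx, hBx, hAav⟩ := had3 (fun z => ρ (z.1, 0, z.2.2)) (sp_res hρ)
      (fun z => rfl)
    set σ' : PP → ℝ := fun z => σ₁ z - z.2.1 ^ N * B z with hσ'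
    set h' : PP → ℝ := fun z => h z + z.2.1 ^ N * A z with hh'
    have sσ' : SP σ' := sp_sub hσ (sp_mul (sp_dp N) hB)
    have sh' : SP h' := sp_add hh (sp_mul (sp_dp N) hA)
    have evx : (vx : PP).2.1 = 0 := rfl
    have evy : (vy b : PP).2.1 = 0 := rfl
    have evt : (vt : PP).2.1 = 0 := rfl
    have evw : (vw : PP).2.1 = 0 := rfl
    have pσ : ∀ v : PP, v.2.1 = 0 → ∀ z, pd v σ' z = pd v σ₁ z - z.2.1 ^ N * pd v B z := by
      intro v hv z
      rw [hσ', pd_sub hσ (sp_mul (sp_dp N) hB), pd_dpm hB hv]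
    have pl : ∀ v : PP, v.2.1 = 0 → ∀ z,
        pd v (dl σ') z = z.2.1 * (pd v σ₁ z - z.2.1 ^ N * pd v B z) := by
      intro v hv z
      rw [pd_dl sσ' hv, pσ v hv]
    have pl0 : ∀ v : PP, v.2.1 = 0 → ∀ z, pd v (dl σ₁) z = z.2.1 * pd v σ₁ z :=
      fun v hv z => pd_dl hσ hv z
    -- the shifts
    obtain ⟨c₁, hc₁, e₁⟩ := had2 h (fun z => γ * pd vw σ₁ z) (fun z => γ * pd vw σ' z) (vy b) hh
      (sp_mul (sp_const γ) (sp_pd hσ vw)) (sp_mul (sp_const γ) (sp_pd sσ' vw))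
    obtain ⟨c₂, hc₂, e₂⟩ := had2 A (fun z => 0) (fun z => γ * pd vw σ' z) (vy b) hA
      (sp_const 0) (sp_mul (sp_const γ) (sp_pd sσ' vw))
    refine ⟨σ', h', fun z => c z + (-(α * pd vx (dl σ₁) z * pd vx B z) +
      α / 2 * (z.2.1 ^ (N + 1) * pd vx B z ^ 2) - z.2.2 * pd (vy b) B z -
      γ * pd (vy b) (dl σ₁) z * pd (vy b) B z + γ / 2 * (z.2.1 ^ (N + 1) * pd (vy b) B z ^ 2) -
      pd vt B z + γ * pd vw B z * c₁ z - γ * pd vw σ' z * c₂ z), sσ', sh', ?_, ?_, ?_, ?_, ?_⟩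
    · have a1 : SP (fun z => -(α * pd vx (dl σ₁) z * pd vx B z)) := by
        have := sp_mul (sp_const (-1)) (sp_mul (sp_mul (sp_const α) (sp_pd (sp_dl hσ) vx)) (sp_pd hB vx))
        simpa using this
      have a2 : SP (fun z => α / 2 * (z.2.1 ^ (N + 1) * pd vx B z ^ 2)) :=
        sp_mul (sp_const _) (sp_mul (sp_dp _) (sp_pow (sp_pd hB vx) 2))
      have a3 : SP (fun z => z.2.2 * pd (vy b) B z) := sp_mul sp_w (sp_pd hB _)
      have a4 : SP (fun z => γ * pd (vy b) (dl σ₁) z * pd (vy b) B z) :=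
        sp_mul (sp_mul (sp_const γ) (sp_pd (sp_dl hσ) _)) (sp_pd hB _)
      have a5 : SP (fun z => γ / 2 * (z.2.1 ^ (N + 1) * pd (vy b) B z ^ 2)) :=
        sp_mul (sp_const _) (sp_mul (sp_dp _) (sp_pow (sp_pd hB _) 2))
      have a6 : SP (fun z => γ * pd vw B z * c₁ z) :=
        sp_mul (sp_mul (sp_const γ) (sp_pd hB _)) hc₁
      have a7 : SP (fun z => γ * pd vw σ' z * c₂ z) :=
        sp_mul (sp_mul (sp_const γ) (sp_pd sσ' _)) hc₂
      exact sp_add hc (sp_sub (sp_add (sp_sub (sp_add (sp_sub (sp_sub (sp_add a1 a2) a3) a4) a5)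
        (sp_pd hB vt)) a6) a7)
    · intro z
      rw [hh', pd_add hh (sp_mul (sp_dp N) hA), pd_dpm hA evx, hvx, hAx]
      ring
    · intro h0
      exact absurd h0 (by omega)
    · intro _ p W
      rcases Nat.eq_zero_or_pos N with hN | hN
      · obtain ⟨hz, hr⟩ := hN0 hN
        have h1 := hAav Fh (-1) (fun z => by simp [hr]) (p, 0, W)
        simp only [hh', hN, pow_zero, one_mul, hz, zero_add, h1]
        ring
      · simp only [hh']
        rw [zero_pow (by omega), zero_mul, add_zero]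
        exact hN1 hN p W
    · intro z
      have r0 := hres z
      have b1 := e₁ z
      have b2 := e₂ z
      have b3 := hce z
      have s1 : (γ * pd vw (dl σ₁) z) = z.2.1 * (γ * pd vw σ₁ z) := by
        rw [pl0 vw evw]
        ring
      have s2 : (γ * pd vw (dl σ') z) = z.2.1 * (γ * pd vw σ' z) := by
        rw [pd_dl sσ' evw]
        ring
      have s3 : (z + (z.2.1 * (γ * pd vw σ' z)) • vy b).2.1 = z.2.1 := by
        simp [vy]
      unfold resid at r0 ⊢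
      rw [s2]
      rw [s1] at r0
      simp only [hh'] 
      rw [s3, b1, b2]
      rw [pσ vx evx, pl vx evx, pl (vy b) evy, pl vt evt, hBx, pσ vw evw]
      simp only [pl0 vx evx, pl0 (vy b) evy, pl0 vt evt] at r0 ⊢
      have hh2 : h (z + (z.2.1 * (γ * pd vw σ₁ z)) • vy b) =
          pd vx σ₁ z + α / 2 * (z.2.1 * pd vx σ₁ z) ^ 2 + z.2.2 * (z.2.1 * pd (vy b) σ₁ z) +
          γ / 2 * (z.2.1 * pd (vy b) σ₁ z) ^ 2 + z.2.1 * pd vt σ₁ z - Fh z.1 - z.2.1 ^ N * ρ z := by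
        linarith
      rw [hh2, b3]
      simp only [mul_zero, zero_smul, add_zero, sub_zero]
      ring

end Pool.Agent.Helper69.EK
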