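import Pool.Agent.Helper69.EK.Stm
import Pool.Agent.Helper32.EK.HJ

set_option autoImplicit false

/-!
# The momenta as functions of the velocities
-/

namespace Pool.Agent.Helper69.EK

open Set Filter Topology Pool.Agent.Helper6K9.ES
open Pool.Agent.Helper6K9.EH (Prof Fam eX eY dst pt Tr mkFam Pv Shf S_PROF S_FLOW)
open scoped ContDiff

namespace INVL

/-- continuous periodic functions are bounded on `|δ| ≤ 1`, `|W| ≤ R` -/
theorem bdd {G : Type*} [NormedAddCommGroup G] (f : PP → G) (hc : Continuous f)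
    (hp : ∀ (p : E 1) (k : Fin (1 + 1) → ℤ) (l : ℤ) (δ W : ℝ),
      f ((p.1 + (fun i => (k i : ℝ)), p.2 + l), δ, W) = f (p, δ, W)) (R : ℝ) :
    ∃ B : ℝ, ∀ (p : E 1) (δ W : ℝ), |δ| ≤ 1 → |W| ≤ R → ‖f (p, δ, W)‖ ≤ B := by
  have hK : IsCompact ((Icc (0 : E 1) 1) ×ˢ ((Icc (-1 : ℝ) 1) ×ˢ (Icc (-R) R))) :=
    isCompact_Icc.prod (isCompact_Icc.prod isCompact_Icc)
  obtain ⟨B, hB⟩ := hK.exists_bound_of_continuousOn hc.continuousOn
  refine ⟨B, fun p δ W hδ hW => ?_⟩
  rw [← hp p (fun i => -⌊p.1 i⌋) (-⌊p.2⌋) δ W]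
  apply hB
  refine ⟨⟨⟨fun i => ?_, ?_⟩, ⟨fun i => ?_, ?_⟩⟩, abs_le.1 hδ, abs_le.1 hW⟩
  · have := Int.floor_le (p.1 i)
    simpa using this
  · have := Int.floor_le p.2
    simpa using this
  · have := Int.lt_floor_add_one (p.1 i)
    simp only [Pi.add_apply, Int.cast_neg, Prod.fst_one, Pi.one_apply]
    linarith
  · have := Int.lt_floor_add_one p.2
    simp only [Int.cast_neg, Prod.snd_one]
    linarith

theorem per_fderiv {a : PP → ℝ} (ha : SP a) (p : E 1) (k : Fin (1 + 1) → ℤ) (l : ℤ) (δ W : ℝ) :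
    fderiv ℝ a ((p.1 + (fun i => (k i : ℝ)), p.2 + l), δ, W) = fderiv ℝ a (p, δ, W) := by
  have h1 : (fun z : PP => a (z + ((fun i => (k i : ℝ), (l : ℝ)), 0, 0))) = a := by
    funext z
    have := ha.2 z.1 k l z.2.1 z.2.2
    rw [← this]
    congr 1
    ext <;> simp
  have h2 := fderiv_comp_add_right (𝕜 := ℝ) (f := a) (x := (p, δ, W))
    ((((fun i => (k i : ℝ)), (l : ℝ)), 0, 0) : PP)
  rw [h1] at h2
  rw [h2]
  congr 1
  ext <;> simp

/-- bound and Lipschitz constant on `|δ| ≤ 1`, `|W| ≤ R` -/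
theorem lip {a : PP → ℝ} (ha : SP a) (R : ℝ) : ∃ B : ℝ, 1 ≤ B ∧ ∀ (p p' : E 1) (δ δ' W W' : ℝ),
    |δ| ≤ 1 → |δ'| ≤ 1 → |W| ≤ R → |W'| ≤ R → |a (p, δ, W)| ≤ B ∧
      |a (p, δ, W) - a (p', δ', W')| ≤ B * (‖p - p'‖ + |δ - δ'| + |W - W'|) := by
  obtain ⟨B₁, h₁⟩ := bdd a ha.1.continuous ha.2 R
  obtain ⟨B₂, h₂⟩ := bdd (fderiv ℝ a) (ha.1.continuous_fderiv (by simp)) (per_fderiv ha) R
  refine ⟨max 1 (max B₁ B₂), le_max_left _ _, fun p p' δ δ' W W' hδ hδ' hW hW' => ⟨?_, ?_⟩⟩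
  · exact (h₁ p δ W hδ hW).trans ((le_max_left _ _).trans (le_max_right _ _))
  · have aux : ∀ x y c d M : ℝ, |x| ≤ M → |y| ≤ M → 0 ≤ c → 0 ≤ d → c + d = 1 →
        |c * x + d * y| ≤ M := by
      intro x y c d M hx hy hc hd hcd
      calc |c * x + d * y| ≤ |c * x| + |d * y| := abs_add_le _ _
        _ = c * |x| + d * |y| := by rw [abs_mul, abs_mul, abs_of_nonneg hc, abs_of_nonneg hd]
        _ ≤ c * M + d * M := by gcongr
        _ = M := by rw [← add_mul, hcd, one_mul]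
    have hcv : Convex ℝ {z : PP | |z.2.1| ≤ 1 ∧ |z.2.2| ≤ R} := by
      intro x hx y hy c d hc hd hcd
      exact ⟨aux _ _ c d 1 hx.1 hy.1 hc hd hcd, aux _ _ c d R hx.2 hy.2 hc hd hcd⟩
    have h3 := hcv.norm_image_sub_le_of_norm_fderiv_le (𝕜 := ℝ) (f := a)
      (C := max 1 (max B₁ B₂)) (fun z _ => HJL.df ha z)
      (fun z hz => (h₂ z.1 z.2.1 z.2.2 hz.1 hz.2).trans
        ((le_max_right _ _).trans (le_max_right _ _)))
      (x := (p', δ', W')) (y := (p, δ, W)) ⟨hδ', hW'⟩ ⟨hδ, hW⟩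
    rw [Real.norm_eq_abs] at h3
    refine h3.trans (mul_le_mul_of_nonneg_left ?_ (by positivity))
    rw [show ((p, δ, W) - (p', δ', W') : PP) = (p - p', δ - δ', W - W') from rfl]
    have n1 := abs_nonneg (δ - δ')
    have n2 := abs_nonneg (W - W')
    have n3 := norm_nonneg (p - p')
    refine norm_prod_le_iff.2 ⟨?_, norm_prod_le_iff.2 ⟨?_, ?_⟩⟩
    · show ‖p - p'‖ ≤ _
      linarith
    · show |δ - δ'| ≤ _
      linarith
    · show |W - W'| ≤ _
      linarith

/-- the function `δ a (p, δ, W)` with `δ = 1 / P` -/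
noncomputable def GG (a : PP → ℝ) (z : PP) : ℝ := 1 / z.2.1 * a (z.1, 1 / z.2.1, z.2.2)

theorem Glip {a : PP → ℝ} (ha : SP a) (R : ℝ) : ∃ B : ℝ, 1 ≤ B ∧
    ∀ (V : ℝ) (p p' : E 1) (P P' W W' : ℝ),
    2 ≤ V → V / 2 ≤ P → V / 2 ≤ P' → |W| ≤ R → |W'| ≤ R → |GG a (p, P, W)| ≤ B / V ∧
      |GG a (p, P, W) - GG a (p', P', W')| ≤ B / V * (‖p - p'‖ + |P - P'| + |W - W'|) := by
  obtain ⟨B, hB, h⟩ := lip ha R
  refine ⟨4 * B, by linarith, fun V p p' P P' W W' hV hP hP' hW hW' => ?_⟩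
  have hV0 : 0 < V := by linarith
  have hP0 : 0 < P := by linarith
  have hP0' : 0 < P' := by linarith
  have i1 : 1 / P ≤ 2 / V := by
    rw [div_le_div_iff₀ hP0 hV0]
    linarith
  have i1' : 1 / P' ≤ 2 / V := by
    rw [div_le_div_iff₀ hP0' hV0]
    linarith
  have i2 : 2 / V ≤ 1 := by
    rw [div_le_one hV0]
    exact hV
  have i0 : 0 < 1 / P := by positivity
  have i0' : 0 < 1 / P' := by positivity
  have a1 : |1 / P| ≤ 1 := by
    rw [abs_of_pos i0]
    linarith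
  have a1' : |1 / P'| ≤ 1 := by
    rw [abs_of_pos i0']
    linarith
  obtain ⟨h1, h2⟩ := h p p' (1 / P) (1 / P') W W' a1 a1' hW hW'
  have d1 : |1 / P - 1 / P'| ≤ 2 / V * |P - P'| := by
    have : 1 / P - 1 / P' = -(1 / P * (1 / P')) * (P - P') := by
      field_simp
      ring
    rw [this, abs_mul, abs_neg, abs_of_pos (by positivity)]
    refine mul_le_mul_of_nonneg_right ?_ (abs_nonneg _)
    calc 1 / P * (1 / P') ≤ 1 / P * 1 := by
          refine mul_le_mul_of_nonneg_left ?_ i0.le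
          linarith
      _ ≤ 2 / V := by linarith
  have n1 := abs_nonneg (P - P')
  have n2 := abs_nonneg (W - W')
  have n3 := norm_nonneg (p - p')
  have d2 : |1 / P - 1 / P'| ≤ |P - P'| := d1.trans (by nlinarith)
  constructor
  · unfold GG
    simp only
    rw [abs_mul, abs_of_pos i0]
    calc 1 / P * |a (p, 1 / P, W)| ≤ 2 / V * B :=
          mul_le_mul i1 h1 (abs_nonneg _) (by positivity)
      _ ≤ 4 * B / V := by
          rw [div_mul_eq_mul_div]
          gcongr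
          linarith
  · unfold GG
    simp only
    have e : 1 / P * a (p, 1 / P, W) - 1 / P' * a (p', 1 / P', W') =
        (1 / P - 1 / P') * a (p, 1 / P, W) + 1 / P' * (a (p, 1 / P, W) - a (p', 1 / P', W')) := by
      ring
    rw [e]
    refine (abs_add_le _ _).trans ?_
    rw [abs_mul, abs_mul, abs_of_pos i0']
    have m1 : |1 / P - 1 / P'| * |a (p, 1 / P, W)| ≤ 2 / V * |P - P'| * B :=
      mul_le_mul d1 h1 (abs_nonneg _) (by positivity)
    have m2 : 1 / P' * |a (p, 1 / P, W) - a (p', 1 / P', W')| ≤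
        2 / V * (B * (‖p - p'‖ + |P - P'| + |W - W'|)) := by
      refine mul_le_mul i1' (h2.trans ?_) (abs_nonneg _) (by positivity)
      refine mul_le_mul_of_nonneg_left ?_ (by linarith)
      linarith
    have m3 : 2 / V * |P - P'| * B + 2 / V * (B * (‖p - p'‖ + |P - P'| + |W - W'|)) ≤
        4 * B / V * (‖p - p'‖ + |P - P'| + |W - W'|) := by
      have : 4 * B / V * (‖p - p'‖ + |P - P'| + |W - W'|) -
        (2 / V * |P - P'| * B + 2 / V * (B * (‖p - p'‖ + |P - P'| + |W - W'|))) =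
        2 / V * B * (‖p - p'‖ + |W - W'|) := by ring
      have h4 : 0 ≤ 2 / V * B * (‖p - p'‖ + |W - W'|) := by positivity
      linarith
    linarith

theorem GG_diff {a : PP → ℝ} (ha : SP a) {z : PP} (hz : 0 < z.2.1) :
    DifferentiableAt ℝ (GG a) z := by
  unfold GG
  have h1 : DifferentiableAt ℝ (fun z : PP => 1 / z.2.1) z := by
    have : DifferentiableAt ℝ (fun z : PP => z.2.1) z := differentiableAt_snd.fst
    have h := this.inv hz.ne'
    have e : (fun z : PP => 1 / z.2.1) = (fun z : PP => z.2.1)⁻¹ := by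
      funext z
      simp
    rw [e]
    exact h
  have h2 : DifferentiableAt ℝ (fun z : PP => ((z.1, 1 / z.2.1, z.2.2) : PP)) z :=
    differentiableAt_fst.prodMk (h1.prodMk differentiableAt_snd.snd)
  exact h1.mul (DifferentiableAt.comp (g := a) z (HJL.df ha _) h2)

/-- existence of the inverse -/
theorem exi {gx gy : PP → ℝ} {B v q R : ℝ} {p : E 1} (hB : 1 ≤ B) (hv : 8 * B ≤ v) (hq : |q| ≤ R)
    (h : ∀ g ∈ ({gx, gy} : Set (PP → ℝ)), ∀ (V : ℝ) (p p' : E 1) (P P' W W' : ℝ),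
      2 ≤ V → V / 2 ≤ P → V / 2 ≤ P' → |W| ≤ R + 1 → |W'| ≤ R + 1 → |g (p, P, W)| ≤ B / V ∧
      |g (p, P, W) - g (p', P', W')| ≤ B / V * (‖p - p'‖ + |P - P'| + |W - W'|)) :
    ∃ y : ℝ × ℝ, |y.1 - v| ≤ 1 ∧ |y.2 - q| ≤ 1 ∧ y.1 = v - gx (p, y) ∧ y.2 = q - gy (p, y) := by
  set T : ℝ × ℝ → ℝ × ℝ := fun y => (v - gx (p, y), q - gy (p, y)) with hT
  set s : Set (ℝ × ℝ) := Metric.closedBall (v, q) 1 with hs
  have hv0 : 0 < v := by linarith
  have hmem : ∀ y ∈ s, |y.1 - v| ≤ 1 ∧ |y.2 - q| ≤ 1 := by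
    intro y hy
    rw [hs, Metric.mem_closedBall, Prod.dist_eq, max_le_iff] at hy
    exact hy
  have hreg : ∀ y ∈ s, v / 2 ≤ y.1 ∧ |y.2| ≤ R + 1 := by
    intro y hy
    obtain ⟨h1, h2⟩ := hmem y hy
    refine ⟨by linarith [(abs_le.1 h1).1], ?_⟩
    calc |y.2| = |(y.2 - q) + q| := by ring_nf
      _ ≤ |y.2 - q| + |q| := abs_add_le _ _
      _ ≤ R + 1 := by linarith
  have hBv : B / v ≤ 1 / 8 := by
    rw [div_le_div_iff₀ hv0 (by norm_num)]
    linarith
  have hmaps : MapsTo T s s := by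
    intro y hy
    obtain ⟨h1, h2⟩ := hreg y hy
    have e1 := (h gx (by simp) v p p y.1 y.1 y.2 y.2 (by linarith) h1 h1 h2 h2).1
    have e2 := (h gy (by simp) v p p y.1 y.1 y.2 y.2 (by linarith) h1 h1 h2 h2).1
    rw [hs, Metric.mem_closedBall, Prod.dist_eq, max_le_iff]
    simp only [hT, Real.dist_eq]
    constructor
    · rw [show v - gx (p, y) - v = -gx (p, y) by ring, abs_neg]
      linarith
    · rw [show q - gy (p, y) - q = -gy (p, y) by ring, abs_neg]
      linarith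
  have hcon : ContractingWith (1 / 2) (hmaps.restrict T s s) := by
    refine ⟨by rw [← NNReal.coe_lt_coe]; norm_num, LipschitzWith.of_dist_le_mul ?_⟩
    rintro ⟨y, hy⟩ ⟨y', hy'⟩
    obtain ⟨h1, h2⟩ := hreg y hy
    obtain ⟨h1', h2'⟩ := hreg y' hy'
    have e1 := (h gx (by simp) v p p y.1 y'.1 y.2 y'.2 (by linarith) h1 h1' h2 h2').2
    have e2 := (h gy (by simp) v p p y.1 y'.1 y.2 y'.2 (by linarith) h1 h1' h2 h2').2
    rw [Subtype.dist_eq, Subtype.dist_eq]
    simp only [MapsTo.val_restrict_apply]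
    have n1 : |y.1 - y'.1| ≤ dist y y' := by
      rw [Prod.dist_eq]
      exact le_max_left _ _
    have n2 : |y.2 - y'.2| ≤ dist y y' := by
      rw [Prod.dist_eq]
      exact le_max_right _ _
    have n0 : 0 ≤ B / v := by positivity
    have key : B / v * (‖p - p‖ + |y.1 - y'.1| + |y.2 - y'.2|) ≤ 1 / 2 * dist y y' := by
      rw [sub_self, norm_zero, zero_add]
      calc B / v * (|y.1 - y'.1| + |y.2 - y'.2|) ≤ 1 / 8 * (dist y y' + dist y y') := by
            gcongr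
        _ ≤ 1 / 2 * dist y y' := by
            have := dist_nonneg (x := y) (y := y')
            linarith
    have hh : ((1 / 2 : NNReal) : ℝ) = 1 / 2 := by norm_num
    rw [hh, Prod.dist_eq]
    refine max_le ?_ ?_
    · simp only [hT, Real.dist_eq]
      rw [show v - gx (p, y) - (v - gx (p, y')) = -(gx (p, y) - gx (p, y')) by ring, abs_neg]
      exact e1.trans key
    · simp only [hT, Real.dist_eq]
      rw [show q - gy (p, y) - (q - gy (p, y')) = -(gy (p, y) - gy (p, y')) by ring, abs_neg]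
      exact e2.trans key
  obtain ⟨y, hy, hfix, -⟩ := ContractingWith.exists_fixedPoint' (x := (v, q))
    Metric.isClosed_closedBall.isComplete hmaps hcon (Metric.mem_closedBall_self (by norm_num))
    (edist_ne_top _ _)
  obtain ⟨h1, h2⟩ := hmem y hy
  have h3 : T y = y := hfix
  refine ⟨y, h1, h2, ?_, ?_⟩
  · conv_lhs => rw [← h3]
  · conv_lhs => rw [← h3]

end INVL

open INVL in
theorem inv : S_INV := by
  intro α γ b R σ₁ hR hσ
  set ax : PP → ℝ := fun z => α * pd vx σ₁ z with hax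
  set ay : PP → ℝ := fun z => γ * pd (vy b) σ₁ z with hay
  have sx : SP ax := HJL.sp_mul (HJL.sp_const α) (HJL.sp_pd hσ vx)
  have sy : SP ay := HJL.sp_mul (HJL.sp_const γ) (HJL.sp_pd hσ (vy b))
  have ex : ∀ (p : E 1) (y : ℝ × ℝ), α * pd vx (dl σ₁) (p, 1 / y.1, y.2) = GG ax (p, y) := by
    intro p y
    rw [HJL.pd_dl hσ (show (vx : PP).2.1 = 0 from rfl)]
    simp only [GG, hax]
    ring
  have ey : ∀ (p : E 1) (y : ℝ × ℝ), γ * pd (vy b) (dl σ₁) (p, 1 / y.1, y.2) = GG ay (p, y) := by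
    intro p y
    rw [HJL.pd_dl hσ (show (vy b : PP).2.1 = 0 from rfl)]
    simp only [GG, hay]
    ring
  obtain ⟨B₁, hB₁, h₁⟩ := Glip sx (R + 1)
  obtain ⟨B₂, hB₂, h₂⟩ := Glip sy (R + 1)
  set B : ℝ := max B₁ B₂ with hBdef
  have hB : 1 ≤ B := hB₁.trans (le_max_left _ _)
  have hg : ∀ g ∈ ({GG ax, GG ay} : Set (PP → ℝ)), ∀ (V : ℝ) (p p' : E 1) (P P' W W' : ℝ),
      2 ≤ V → V / 2 ≤ P → V / 2 ≤ P' → |W| ≤ R + 1 → |W'| ≤ R + 1 → |g (p, P, W)| ≤ B / V ∧
      |g (p, P, W) - g (p', P', W')| ≤ B / V * (‖p - p'‖ + |P - P'| + |W - W'|) := by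
    intro g hgm V p p' P P' W W' hV hP hP' hW hW'
    have hV0 : 0 < V := by linarith
    have n0 : 0 ≤ ‖p - p'‖ + |P - P'| + |W - W'| := by positivity
    rcases hgm with rfl | hgm
    · obtain ⟨u1, u2⟩ := h₁ V p p' P P' W W' hV hP hP' hW hW'
      have : B₁ / V ≤ B / V := div_le_div_of_nonneg_right (le_max_left _ _) hV0.le
      exact ⟨u1.trans this, u2.trans (mul_le_mul_of_nonneg_right this n0)⟩
    · rw [mem_singleton_iff] at hgm
      subst hgm
      obtain ⟨u1, u2⟩ := h₂ V p p' P P' W W' hV hP hP' hW hW'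
      have : B₂ / V ≤ B / V := div_le_div_of_nonneg_right (le_max_right _ _) hV0.le
      exact ⟨u1.trans this, u2.trans (mul_le_mul_of_nonneg_right this n0)⟩
  have hex : ∀ (v q : ℝ) (p : E 1), ∃ y : ℝ × ℝ, 8 * B ≤ v → |q| ≤ R →
      |y.1 - v| ≤ 1 ∧ |y.2 - q| ≤ 1 ∧ y.1 = v - GG ax (p, y) ∧ y.2 = q - GG ay (p, y) := by
    intro v q p
    by_cases hv : 8 * B ≤ v ∧ |q| ≤ R
    · obtain ⟨y, hy⟩ := exi (p := p) hB hv.1 hv.2 hg
      exact ⟨y, fun _ _ => hy⟩
    · exact ⟨0, fun h1 h2 => absurd ⟨h1, h2⟩ hv⟩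
  choose Y hY using hex
  have hreg : ∀ (V v q : ℝ) (p : E 1), 8 * B ≤ V → V ≤ v → |q| ≤ R →
      V / 2 ≤ (Y v q p).1 ∧ |(Y v q p).2| ≤ R + 1 ∧ V - 1 ≤ (Y v q p).1 := by
    intro V v q p hV hv hq
    obtain ⟨y1, y2, -, -⟩ := hY v q p (hV.trans hv) hq
    refine ⟨by linarith [(abs_le.1 y1).1], ?_, by linarith [(abs_le.1 y1).1]⟩
    calc |(Y v q p).2| = |((Y v q p).2 - q) + q| := by ring_nf
      _ ≤ |(Y v q p).2 - q| + |q| := abs_add_le _ _
      _ ≤ R + 1 := by linarith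
  -- stability
  have hst : ∀ (V v v' q q' : ℝ) (p p' : E 1), 8 * B ≤ V → V ≤ v → V ≤ v' → |q| ≤ R → |q'| ≤ R →
      |(Y v q p).1 - (Y v' q' p').1| + |(Y v q p).2 - (Y v' q' p').2| ≤
        2 * (|v - v'| + |q - q'|) + ‖p - p'‖ ∧
      |((Y v q p).1 - v) - ((Y v' q' p').1 - v')| ≤
        2 * B / V * (|v - v'| + |q - q'| + ‖p - p'‖) ∧
      |((Y v q p).2 - q) - ((Y v' q' p').2 - q')| ≤
        2 * B / V * (|v - v'| + |q - q'| + ‖p - p'‖) := by
    intro V v v' q q' p p' hV hv hv' hq hq'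
    obtain ⟨r1, r2, -⟩ := hreg V v q p hV hv hq
    obtain ⟨r1', r2', -⟩ := hreg V v' q' p' hV hv' hq'
    obtain ⟨-, -, y3, y4⟩ := hY v q p (hV.trans hv) hq
    obtain ⟨-, -, y3', y4'⟩ := hY v' q' p' (hV.trans hv') hq'
    have e1 := (hg (GG ax) (by simp) V p p' _ _ _ _ (by linarith) r1 r1' r2 r2').2
    have e2 := (hg (GG ay) (by simp) V p p' _ _ _ _ (by linarith) r1 r1' r2 r2').2
    have hV0 : 0 < V := by linarith
    have hBV : B / V ≤ 1 / 8 := by
      rw [div_le_div_iff₀ hV0 (by norm_num)]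
      linarith
    have hBV0 : 0 ≤ B / V := by positivity
    set D : ℝ := |(Y v q p).1 - (Y v' q' p').1| + |(Y v q p).2 - (Y v' q' p').2| with hD
    have hD0 : 0 ≤ D := by positivity
    have f1 : ((Y v q p).1 - v) - ((Y v' q' p').1 - v') =
        -(GG ax (p, Y v q p) - GG ax (p', Y v' q' p')) := by linarith
    have f2 : ((Y v q p).2 - q) - ((Y v' q' p').2 - q') =
        -(GG ay (p, Y v q p) - GG ay (p', Y v' q' p')) := by linarith
    have e1' : |GG ax (p, Y v q p) - GG ax (p', Y v' q' p')| ≤ B / V * (‖p - p'‖ + D) := by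
      have : ‖p - p'‖ + D = ‖p - p'‖ + |(Y v q p).1 - (Y v' q' p').1| +
        |(Y v q p).2 - (Y v' q' p').2| := by rw [hD]; ring
      rw [this]
      exact e1
    have e2' : |GG ay (p, Y v q p) - GG ay (p', Y v' q' p')| ≤ B / V * (‖p - p'‖ + D) := by
      have : ‖p - p'‖ + D = ‖p - p'‖ + |(Y v q p).1 - (Y v' q' p').1| +
        |(Y v q p).2 - (Y v' q' p').2| := by rw [hD]; ring
      rw [this]
      exact e2
    have g1 : |(Y v q p).1 - (Y v' q' p').1| ≤ |v - v'| + B / V * (‖p - p'‖ + D) := by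
      have : (Y v q p).1 - (Y v' q' p').1 = (v - v') + -(GG ax (p, Y v q p) - GG ax (p', Y v' q' p')) := by
        linarith
      rw [this]
      refine (abs_add_le _ _).trans ?_
      rw [abs_neg]
      linarith
    have g2 : |(Y v q p).2 - (Y v' q' p').2| ≤ |q - q'| + B / V * (‖p - p'‖ + D) := by
      have : (Y v q p).2 - (Y v' q' p').2 = (q - q') + -(GG ay (p, Y v q p) - GG ay (p', Y v' q' p')) := by
        linarith
      rw [this]
      refine (abs_add_le _ _).trans ?_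
      rw [abs_neg]
      linarith
    have np := norm_nonneg (p - p')
    have g3 : B / V * (‖p - p'‖ + D) ≤ 1 / 8 * (‖p - p'‖ + D) :=
      mul_le_mul_of_nonneg_right hBV (by positivity)
    have nv := abs_nonneg (v - v')
    have nq := abs_nonneg (q - q')
    have hDle : D ≤ 2 * (|v - v'| + |q - q'|) + ‖p - p'‖ := by
      rw [hD] at g1 g2 g3 ⊢
      linarith
    have g4 : B / V * (‖p - p'‖ + D) ≤ 2 * B / V * (|v - v'| + |q - q'| + ‖p - p'‖) := by
      have : 2 * B / V * (|v - v'| + |q - q'| + ‖p - p'‖) =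
        B / V * (2 * (|v - v'| + |q - q'| + ‖p - p'‖)) := by ring
      rw [this]
      refine mul_le_mul_of_nonneg_left ?_ hBV0
      linarith
    refine ⟨hDle, ?_, ?_⟩
    · rw [f1, abs_neg]
      exact e1'.trans g4
    · rw [f2, abs_neg]
      exact e2'.trans g4
  have hsz : ∀ (v q : ℝ) (p : E 1), 8 * B ≤ v → |q| ≤ R →
      |(Y v q p).1 - v| ≤ 2 * B / v ∧ |(Y v q p).2 - q| ≤ 2 * B / v := by
    intro v q p hv hq
    obtain ⟨r1, r2, -⟩ := hreg v v q p hv le_rfl hq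
    obtain ⟨-, -, y3, y4⟩ := hY v q p hv hq
    have e1 := (hg (GG ax) (by simp) v p p _ _ _ _ (by linarith) r1 r1 r2 r2).1
    have e2 := (hg (GG ay) (by simp) v p p _ _ _ _ (by linarith) r1 r1 r2 r2).1
    have hv0 : 0 < v := by linarith
    have : B / v ≤ 2 * B / v := by
      gcongr
      linarith
    constructor
    · rw [show (Y v q p).1 - v = -GG ax (p, Y v q p) by linarith, abs_neg]
      exact e1.trans this
    · rw [show (Y v q p).2 - q = -GG ay (p, Y v q p) by linarith, abs_neg]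
      exact e2.trans this
  have hcts : ContinuousOn (fun z : ℝ × ℝ × E 1 => ((Y z.1 z.2.1 z.2.2).1, (Y z.1 z.2.1 z.2.2).2))
      {z | 8 * B ≤ z.1 ∧ |z.2.1| ≤ R} := by
    have : LipschitzOnWith 5
        (fun z : ℝ × ℝ × E 1 => ((Y z.1 z.2.1 z.2.2).1, (Y z.1 z.2.1 z.2.2).2))
        {z | 8 * B ≤ z.1 ∧ |z.2.1| ≤ R} := by
      refine LipschitzOnWith.of_dist_le_mul ?_
      rintro z ⟨hz1, hz2⟩ z' ⟨hz1', hz2'⟩
      obtain ⟨s1, -, -⟩ := hst (8 * B) z.1 z'.1 z.2.1 z'.2.1 z.2.2 z'.2.2 le_rfl hz1 hz1' hz2 hz2'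
      have n1 : |z.1 - z'.1| ≤ dist z z' := by
        rw [Prod.dist_eq]
        exact le_max_left _ _
      have n2 : |z.2.1 - z'.2.1| ≤ dist z z' := by
        rw [Prod.dist_eq, Prod.dist_eq]
        exact (le_max_left _ _).trans (le_max_right _ _)
      have n3 : ‖z.2.2 - z'.2.2‖ ≤ dist z z' := by
        rw [Prod.dist_eq, Prod.dist_eq, ← dist_eq_norm]
        exact (le_max_right _ _).trans (le_max_right _ _)
      have m1 := abs_nonneg ((Y z.1 z.2.1 z.2.2).1 - (Y z'.1 z'.2.1 z'.2.2).1)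
      have m2 := abs_nonneg ((Y z.1 z.2.1 z.2.2).2 - (Y z'.1 z'.2.1 z'.2.2).2)
      rw [Prod.dist_eq]
      have h5 : ((5 : NNReal) : ℝ) = 5 := by norm_num
      rw [h5]
      refine max_le ?_ ?_
      · simp only [Real.dist_eq]
        linarith
      · simp only [Real.dist_eq]
        linarith
    exact this.continuousOn
  refine ⟨fun v q p => (Y v q p).1, fun v q p => (Y v q p).2, 2 * B, 8 * B, by linarith,
    by linarith, ?_⟩
  refine ⟨⟨?_, ?_, ?_⟩, ?_, ?_, hcts⟩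
  · intro v q p hv hq
    exact hsz v q p hv (hq.trans hR)
  · intro V v v' q q' p p' hV hv hv' hq hq' hp
    obtain ⟨-, s2, s3⟩ := hst V v v' q q' p p' hV hv hv' (hq.trans hR) (hq'.trans hR)
    have hV0 : 0 < V := by linarith
    have hn : ‖p - p'‖ ≤ |p.1 0 - p'.1 0| + |p.1 1 - p'.1 1| := by
      rw [Prod.norm_def]
      refine max_le ?_ ?_
      · rw [pi_norm_le_iff_of_nonneg (by positivity)]
        intro i
        fin_cases i
        · have := abs_nonneg (p.1 1 - p'.1 1)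
          simp only [Prod.fst_sub, Pi.sub_apply, Real.norm_eq_abs]
          show |p.1 0 - p'.1 0| ≤ _
          linarith
        · have := abs_nonneg (p.1 0 - p'.1 0)
          simp only [Prod.fst_sub, Pi.sub_apply, Real.norm_eq_abs]
          show |p.1 1 - p'.1 1| ≤ _
          linarith
      · rw [Prod.snd_sub, hp, sub_self, norm_zero]
        positivity
    have hm : 2 * B / V * (|v - v'| + |q - q'| + ‖p - p'‖) ≤
        2 * B / V * (|v - v'| + |q - q'| + |p.1 0 - p'.1 0| + |p.1 1 - p'.1 1|) := by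
      refine mul_le_mul_of_nonneg_left ?_ (by positivity)
      linarith
    exact ⟨s2.trans hm, s3.trans hm⟩
  · exact hcts.mono fun z hz => ⟨hz.1, hz.2.trans hR⟩
  · intro v q p hv hq
    obtain ⟨s1, s2⟩ := hsz v q p hv hq
    obtain ⟨-, -, y3, y4⟩ := hY v q p hv hq
    refine ⟨s1, s2, ?_, ?_⟩
    · rw [ex p (Y v q p)]
      linarith
    · rw [ey p (Y v q p)]
      linarith
  · intro v q p₀ p₁ t hv hq dv dq dp₀ dp₁
    -- the map and its local inverse
    set Ψ : PP → PP := fun z => z + (0, GG ax z, GG ay z) with hΨ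
    set g : PP → PP := fun z => (z.1, Y z.2.1 z.2.2 z.1) with hgdef
    set z₀ : PP := (pt (p₀ t) (p₁ t) t, v t, q t) with hz₀
    have hopen : ∀ᶠ z : PP in 𝓝 z₀, 8 * B < z.2.1 ∧ |z.2.2| < R := by
      have c1 : ContinuousAt (fun z : PP => z.2.1) z₀ := continuous_snd.fst.continuousAt
      have c2 : ContinuousAt (fun z : PP => |z.2.2|) z₀ := continuous_snd.snd.abs.continuousAt
      exact (c1.eventually (lt_mem_nhds hv)).and (c2.eventually (gt_mem_nhds hq))
    have hgc : ContinuousAt g z₀ := by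
      have c1 : ContinuousAt (fun z : ℝ × ℝ × E 1 => ((Y z.1 z.2.1 z.2.2).1, (Y z.1 z.2.1 z.2.2).2))
          (v t, q t, pt (p₀ t) (p₁ t) t) := by
        refine hcts.continuousAt ?_
        have e1 : ContinuousAt (fun z : ℝ × ℝ × E 1 => z.1) (v t, q t, pt (p₀ t) (p₁ t) t) :=
          continuous_fst.continuousAt
        have e2 : ContinuousAt (fun z : ℝ × ℝ × E 1 => |z.2.1|) (v t, q t, pt (p₀ t) (p₁ t) t) :=
          continuous_snd.fst.abs.continuousAt
        filter_upwards [e1.eventually (lt_mem_nhds hv), e2.eventually (gt_mem_nhds hq)] with z h1 h2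
        exact ⟨h1.le, h2.le⟩
      have c2 : ContinuousAt (fun z : PP => ((z.2.1, z.2.2, z.1) : ℝ × ℝ × E 1)) z₀ :=
        (continuous_snd.fst.prodMk (continuous_snd.snd.prodMk continuous_fst)).continuousAt
      have c3 := ContinuousAt.comp (f := fun z : PP => ((z.2.1, z.2.2, z.1) : ℝ × ℝ × E 1))
        (x := z₀) c1 c2
      exact continuous_fst.continuousAt.prodMk c3
    have hinv : ∀ᶠ z : PP in 𝓝 z₀, Ψ (g z) = z := by
      filter_upwards [hopen] with z hz
      obtain ⟨-, -, y3, y4⟩ := hY z.2.1 z.2.2 z.1 hz.1.le hz.2.le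
      refine Prod.ext ?_ (Prod.ext ?_ ?_)
      · simp [hΨ, hgdef]
      · simp only [hΨ, hgdef, Prod.snd_add, Prod.fst_add]
        linarith
      · simp only [hΨ, hgdef, Prod.snd_add]
        linarith
    obtain ⟨r1, r2, r3⟩ := hreg (v t) (v t) (q t) (pt (p₀ t) (p₁ t) t) hv.le le_rfl hq.le
    obtain ⟨y1, y2, -, -⟩ := hY (v t) (q t) (pt (p₀ t) (p₁ t) t) hv.le hq.le
    have hgz : g z₀ = (pt (p₀ t) (p₁ t) t, Y (v t) (q t) (pt (p₀ t) (p₁ t) t)) := rfl
    have hpos : 0 < (g z₀).2.1 := by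
      rw [hgz]
      simp only
      linarith
    have hGd : DifferentiableAt ℝ (fun z : PP => ((0, GG ax z, GG ay z) : PP)) (g z₀) :=
      (differentiableAt_const _).prodMk ((GG_diff sx hpos).prodMk (GG_diff sy hpos))
    set G' := fderiv ℝ (fun z : PP => ((0, GG ax z, GG ay z) : PP)) (g z₀) with hG'
    have hnear : {z : PP | 4 * B < z.2.1 ∧ |z.2.2| < R + 1} ∈ 𝓝 (g z₀) := by
      have c1 : ContinuousAt (fun z : PP => z.2.1) (g z₀) := continuous_snd.fst.continuousAt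
      have c2 : ContinuousAt (fun z : PP => |z.2.2|) (g z₀) := continuous_snd.snd.abs.continuousAt
      have l1 : 4 * B < (g z₀).2.1 := by
        rw [hgz]
        simp only
        linarith
      have l2 : |(g z₀).2.2| < R + 1 := by
        rw [hgz]
        simp only
        calc |(Y (v t) (q t) (pt (p₀ t) (p₁ t) t)).2|
            = |((Y (v t) (q t) (pt (p₀ t) (p₁ t) t)).2 - q t) + q t| := by ring_nf
          _ ≤ |(Y (v t) (q t) (pt (p₀ t) (p₁ t) t)).2 - q t| + |q t| := abs_add_le _ _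
          _ < R + 1 := by linarith
      exact (c1.eventually (lt_mem_nhds l1)).and (c2.eventually (gt_mem_nhds l2))
    have hlip : LipschitzOnWith (1 / 2) (fun z : PP => ((0, GG ax z, GG ay z) : PP))
        {z : PP | 4 * B < z.2.1 ∧ |z.2.2| < R + 1} := by
      refine LipschitzOnWith.of_dist_le_mul ?_
      rintro z ⟨hz1, hz2⟩ z' ⟨hz1', hz2'⟩
      have e1 := (hg (GG ax) (by simp) (8 * B) z.1 z'.1 z.2.1 z'.2.1 z.2.2 z'.2.2 (by linarith)
        (by linarith) (by linarith) hz2.le hz2'.le).2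
      have e2 := (hg (GG ay) (by simp) (8 * B) z.1 z'.1 z.2.1 z'.2.1 z.2.2 z'.2.2 (by linarith)
        (by linarith) (by linarith) hz2.le hz2'.le).2
      have hB8 : B / (8 * B) = 1 / 8 := by
        field_simp
      rw [hB8] at e1 e2
      have n1 : ‖z.1 - z'.1‖ ≤ dist z z' := by
        rw [Prod.dist_eq, ← dist_eq_norm]
        exact le_max_left _ _
      have n2 : |z.2.1 - z'.2.1| ≤ dist z z' := by
        rw [Prod.dist_eq, Prod.dist_eq]
        exact (le_max_left _ _).trans (le_max_right _ _)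
      have n3 : |z.2.2 - z'.2.2| ≤ dist z z' := by
        rw [Prod.dist_eq, Prod.dist_eq]
        exact (le_max_right _ _).trans (le_max_right _ _)
      have n4 := dist_nonneg (x := z) (y := z')
      have hh : ((1 / 2 : NNReal) : ℝ) = 1 / 2 := by norm_num
      rw [hh, Prod.dist_eq (x := ((0, GG ax z, GG ay z) : PP)), Prod.dist_eq (x := (GG ax z, GG ay z))]
      refine max_le ?_ (max_le ?_ ?_)
      · simp only [dist_self]
        linarith
      · simp only [Real.dist_eq]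
        linarith
      · simp only [Real.dist_eq]
        linarith
    have hnorm : ‖G'‖ ≤ ((1 / 2 : NNReal) : ℝ) :=
      HasFDerivAt.le_of_lipschitzOn hGd.hasFDerivAt hnear hlip
    have hnorm' : ‖-G'‖ < 1 := by
      rw [norm_neg]
      refine hnorm.trans_lt ?_
      norm_num
    set f' : PP ≃L[ℝ] PP := ContinuousLinearEquiv.unitsEquiv ℝ PP (Units.oneSub (-G') hnorm')
      with hf'
    have hf'c : (f' : PP →L[ℝ] PP) = ContinuousLinearMap.id ℝ PP + G' := by
      refine ContinuousLinearMap.ext fun u => ?_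
      rw [hf']
      have e : (((ContinuousLinearEquiv.unitsEquiv ℝ PP) (Units.oneSub (-G') hnorm') :
          PP ≃L[ℝ] PP) : PP →L[ℝ] PP) u = ((Units.oneSub (-G') hnorm' : (PP →L[ℝ] PP)ˣ) :
            PP →L[ℝ] PP) u := rfl
      rw [e, Units.val_oneSub]
      simp
    have hΨd : HasFDerivAt Ψ (f' : PP →L[ℝ] PP) (g z₀) := by
      rw [hf'c]
      exact (hasFDerivAt_id _).add hGd.hasFDerivAt
    have hgd : HasFDerivAt g (f'.symm : PP →L[ℝ] PP) z₀ :=
      HasFDerivAt.of_local_left_inverse hgc hΨd hinv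
    have hcur : DifferentiableAt ℝ (fun s : ℝ => ((pt (p₀ s) (p₁ s) s, v s, q s) : PP)) t := by
      refine DifferentiableAt.prodMk (DifferentiableAt.prodMk ?_ differentiableAt_id)
        (dv.prodMk dq)
      rw [differentiableAt_pi]
      intro i
      fin_cases i
      · exact dp₀
      · exact dp₁
    have hfin : DifferentiableAt ℝ (fun s : ℝ => g (pt (p₀ s) (p₁ s) s, v s, q s)) t :=
      DifferentiableAt.comp (g := g) t (hgd.differentiableAt) hcur
    exact ⟨hfin.snd.fst, hfin.snd.snd⟩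

end Pool.Agent.Helper69.EK
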